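import Pool.Agent.helper64.PB.SpecF

/-!
# Project pb (MP_069684_lc): row BLO
-/

set_option autoImplicit false

namespace Pool.Agent.PB

open Finset Polynomial

theorem BLO_exp (e : ℕ) (he : 16 ≤ e) : 32 * e + 4 ≤ 2 ^ e := by
  induction e, he using Nat.le_induction with
  | base => norm_num
  | succ n hn ih =>
    rw [pow_succ]
    omega

theorem BLO_num (e m : ℕ) (he : 16 ≤ e) (hm : m < 2 ^ 2 ^ e) :
    2 * (m * ((2 ^ (8 * e)) ^ 2 + 1) ^ (2 * 2 ^ e)) < 2 ^ 2 ^ (2 * e) := by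
  have h1 : (2 ^ (8 * e)) ^ 2 + 1 ≤ 2 ^ (16 * e + 1) := by
    have h2 : (2 ^ (8 * e)) ^ 2 = 2 ^ (16 * e) := by
      rw [← pow_mul]
      congr 1
      ring
    have h3 := Nat.one_le_two_pow (n := 16 * e)
    rw [h2, pow_succ]
    omega
  have h2 : ((2 ^ (8 * e)) ^ 2 + 1) ^ (2 * 2 ^ e) ≤ 2 ^ ((16 * e + 1) * (2 * 2 ^ e)) := by
    rw [pow_mul 2 (16 * e + 1) (2 * 2 ^ e)]
    exact Nat.pow_le_pow_left h1 _
  have h3 : 1 + 2 ^ e + (16 * e + 1) * (2 * 2 ^ e) < 2 ^ (2 * e) := by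
    have h4 := BLO_exp e he
    have h5 : 2 ^ (2 * e) = 2 ^ e * 2 ^ e := by
      rw [← pow_add]
      congr 1
      ring
    rw [h5]
    generalize 2 ^ e = T at h4 ⊢
    nlinarith [Nat.mul_le_mul_left T h4]
  calc 2 * (m * ((2 ^ (8 * e)) ^ 2 + 1) ^ (2 * 2 ^ e))
      ≤ 2 * (2 ^ 2 ^ e * 2 ^ ((16 * e + 1) * (2 * 2 ^ e))) := by
        exact Nat.mul_le_mul_left _ (Nat.mul_le_mul hm.le h2)
    _ = 2 ^ (1 + 2 ^ e + (16 * e + 1) * (2 * 2 ^ e)) := by
        rw [pow_add, pow_add, pow_one, mul_assoc]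
    _ < 2 ^ 2 ^ (2 * e) := Nat.pow_lt_pow_right (by norm_num) h3

theorem BLO_geo (t : ℕ) : ∑ j ∈ Icc 1 t, ((1 : ℝ) / 4) ^ j = (1 - (1 / 4) ^ t) / 3 := by
  induction t with
  | zero => simp
  | succ t ih =>
    rw [Finset.sum_Icc_succ_top (by omega), ih, pow_succ]
    ring

/-- The number of graphs accepted by a small family. -/
theorem BLO_count (hPCN : PCN_stmt) (K : Type) [Field K] [Fintype K] [DecidableEq K] (t L : ℕ)
    (hq : Fintype.card K = 16 * t * L) (htq : 2 * t + 1 ≤ Fintype.card K)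
    (𝓜 : Finset (Finset (K × K))) (hsm : Small t L 𝓜) (h0 : ∅ ∉ 𝓜) :
    ((∑ B ∈ 𝓜, (univ.filter fun a : Fin (2 * t + 1) → K => ∀ z ∈ B, gr a z = true).card : ℕ) : ℝ) ≤
      (Fintype.card K : ℝ) ^ (2 * t + 1) / 3 := by
  have hqpos : (0 : ℝ) < Fintype.card K := by exact_mod_cast Fintype.card_pos
  push_cast
  have h1 : ∀ B ∈ 𝓜, ((univ.filter fun a : Fin (2 * t + 1) → K => ∀ z ∈ B, gr a z = true).card : ℝ) ≤
      (Fintype.card K : ℝ) ^ (2 * t + 1) / (Fintype.card K : ℝ) ^ B.card := by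
    intro B hB
    rw [le_div_iff₀ (by positivity)]
    have := hPCN K (2 * t) B (hsm.1 B hB).1 (by have := (hsm.1 B hB).2; omega) htq
    exact_mod_cast this
  have hmaps : ∀ B ∈ 𝓜, B.card ∈ Icc 1 t := by
    intro B hB
    rw [Finset.mem_Icc]
    refine ⟨?_, (hsm.1 B hB).2⟩
    by_contra hc
    have h2 : B = ∅ := Finset.card_eq_zero.1 (by omega)
    rw [h2] at hB
    exact h0 hB
  refine (Finset.sum_le_sum h1).trans ?_
  rw [← Finset.sum_fiberwise_of_maps_to hmaps]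
  have h2 : ∀ j ∈ Icc 1 t, ∑ B ∈ 𝓜 with B.card = j,
      (Fintype.card K : ℝ) ^ (2 * t + 1) / (Fintype.card K : ℝ) ^ B.card ≤
      (Fintype.card K : ℝ) ^ (2 * t + 1) * (1 / 4) ^ j := by
    intro j _
    have h3 : ∑ B ∈ 𝓜 with B.card = j,
        (Fintype.card K : ℝ) ^ (2 * t + 1) / (Fintype.card K : ℝ) ^ B.card =
        ∑ B ∈ 𝓜 with B.card = j, (Fintype.card K : ℝ) ^ (2 * t + 1) / (Fintype.card K : ℝ) ^ j := by
      refine Finset.sum_congr rfl fun B hB => ?_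
      rw [(Finset.mem_filter.1 hB).2]
    rw [h3, Finset.sum_const, nsmul_eq_mul]
    have h4 : ((𝓜.filter fun B => B.card = j).card : ℝ) ≤ ((4 * t * L : ℕ) : ℝ) ^ j := by
      exact_mod_cast hsm.2 j
    have h5 : (Fintype.card K : ℝ) = 4 * ((4 * t * L : ℕ) : ℝ) := by
      rw [hq]
      push_cast
      ring
    have h6 : ((4 * t * L : ℕ) : ℝ) ^ j = (Fintype.card K : ℝ) ^ j * (1 / 4) ^ j := by
      rw [h5, ← mul_pow]
      congr 1
      ring
    have h7 : (0 : ℝ) < (Fintype.card K : ℝ) ^ j := by positivity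
    calc ((𝓜.filter fun B => B.card = j).card : ℝ) *
          ((Fintype.card K : ℝ) ^ (2 * t + 1) / (Fintype.card K : ℝ) ^ j)
        ≤ ((Fintype.card K : ℝ) ^ j * (1 / 4) ^ j) *
          ((Fintype.card K : ℝ) ^ (2 * t + 1) / (Fintype.card K : ℝ) ^ j) := by
          rw [← h6]
          exact mul_le_mul_of_nonneg_right h4 (by positivity)
      _ = (Fintype.card K : ℝ) ^ (2 * t + 1) * (1 / 4) ^ j := by
          field_simp
  refine (Finset.sum_le_sum h2).trans ?_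
  rw [← Finset.mul_sum, BLO_geo]
  have h8 : (0 : ℝ) ≤ (1 / 4) ^ t := by positivity
  have h9 : (0 : ℝ) < (Fintype.card K : ℝ) ^ (2 * t + 1) := by positivity
  have h10 : (1 - (1 / 4 : ℝ) ^ t) / 3 ≤ 1 / 3 := by linarith
  calc (Fintype.card K : ℝ) ^ (2 * t + 1) * ((1 - (1 / 4) ^ t) / 3)
      ≤ (Fintype.card K : ℝ) ^ (2 * t + 1) * (1 / 3) := mul_le_mul_of_nonneg_left h10 h9.le
    _ = (Fintype.card K : ℝ) ^ (2 * t + 1) / 3 := by ring

theorem BLO (hAPX : APX_stmt) (hPCN : PCN_stmt) : BLO_stmt := by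
  intro K _ _ _ e N ε ρ u s he hq hsize hacc hrej
  obtain ⟨l, hl, hls, hav⟩ := hsize
  by_contra hs
  rw [not_le] at hs
  obtain ⟨E, E', hE, hE', h⟩ := hAPX K (2 ^ (7 * e - 4)) (2 ^ (2 * e)) (2 ^ e) N ε ρ l
    Nat.one_le_two_pow Nat.one_le_two_pow hl
  obtain ⟨𝓜, hsm, h1, h2⟩ := h u hav
  by_cases h0 : ∅ ∈ 𝓜
  · have hne : Nonempty (Fin (2 ^ (2 * e)) → (K × Fin (16 * 2 ^ e) → Fin (2 ^ (7 * e - 4)))) :=
      ⟨fun _ _ => ⟨0, by positivity⟩⟩
    have hpos : 0 < Fintype.card (Fin (2 ^ (2 * e)) → (K × Fin (16 * 2 ^ e) → Fin (2 ^ (7 * e - 4)))) :=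
      Fintype.card_pos
    have hall : ∀ x : K × K → Bool, Acc 𝓜 x := fun x =>
      ⟨∅, h0, fun z hz => absurd hz (Finset.notMem_empty z)⟩
    rw [Nat.card_eq_fintype_card, Fintype.card_subtype] at hrej
    have hcov : (univ : Finset (Fin (2 ^ (2 * e)) → (K × Fin (16 * 2 ^ e) → Fin (2 ^ (7 * e - 4))))) ⊆
        (univ.filter fun ω => u (fun i => Ng ε ω (ρ.symm i)) = true) ∪ E' := by
      intro ω _
      rw [Finset.mem_union, Finset.mem_filter]
      by_cases hω : ω ∈ E'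
      · exact Or.inr hω
      · exact Or.inl ⟨Finset.mem_univ _, h2 ω hω (hall _)⟩
    have hc := (Finset.card_le_card hcov).trans (Finset.card_union_le _ _)
    rw [Finset.card_univ] at hc
    generalize Fintype.card (Fin (2 ^ (2 * e)) → (K × Fin (16 * 2 ^ e) → Fin (2 ^ (7 * e - 4)))) = Ω
      at hpos hrej hc hE'
    have h3 : Ω ≤ 2 * E'.card := by omega
    have h4 : Ω * 2 ^ 2 ^ (2 * e) ≤
        Ω * (2 * (l.length * ((2 ^ (8 * e)) ^ 2 + 1) ^ (2 * 2 ^ e))) := by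
      rw [hq] at hE'
      calc Ω * 2 ^ 2 ^ (2 * e) ≤ (2 * E'.card) * 2 ^ 2 ^ (2 * e) := Nat.mul_le_mul_right _ h3
        _ = 2 * (E'.card * 2 ^ 2 ^ (2 * e)) := by ring
        _ ≤ 2 * (l.length * (((2 ^ (8 * e)) ^ 2 + 1) ^ (2 * 2 ^ e) * Ω)) :=
          Nat.mul_le_mul_left _ hE'
        _ = Ω * (2 * (l.length * ((2 ^ (8 * e)) ^ 2 + 1) ^ (2 * 2 ^ e))) := by ring
    have h5 := Nat.le_of_mul_le_mul_left h4 hpos
    have h6 := BLO_num e l.length he (by omega)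
    omega
  · have hqL : Fintype.card K = 16 * 2 ^ e * 2 ^ (7 * e - 4) := by
      rw [Fintype.card_congr ε, Fintype.card_prod, Fintype.card_fin, Fintype.card_fin]
    have htq : 2 * 2 ^ e + 1 ≤ Fintype.card K := by
      rw [hqL]
      have h3 := Nat.one_le_two_pow (n := e)
      have h4 := Nat.one_le_two_pow (n := 7 * e - 4)
      nlinarith [Nat.mul_le_mul h3 h4, Nat.mul_le_mul_left (16 * 2 ^ e) h4]
    have hcount := BLO_count hPCN K (2 ^ e) (2 ^ (7 * e - 4)) hqL htq 𝓜 hsm h0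
    have hcov : (univ : Finset (Fin (2 * 2 ^ e + 1) → K)) ⊆
        E ∪ 𝓜.biUnion fun B => univ.filter fun a : Fin (2 * 2 ^ e + 1) → K => ∀ z ∈ B, gr a z = true := by
      intro a _
      rw [Finset.mem_union, Finset.mem_biUnion]
      by_cases ha : a ∈ E
      · exact Or.inl ha
      · right
        obtain ⟨B, hB, hB2⟩ := h1 a ha (hacc a)
        exact ⟨B, hB, Finset.mem_filter.2 ⟨Finset.mem_univ _, hB2⟩⟩
    have hc := (Finset.card_le_card hcov).trans ((Finset.card_union_le _ _).trans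
      (Nat.add_le_add_left Finset.card_biUnion_le _))
    rw [Finset.card_univ, Fintype.card_fun, Fintype.card_fin] at hc
    have hc' : (Fintype.card K : ℝ) ^ (2 * 2 ^ e + 1) ≤ (E.card : ℝ) +
        ((∑ B ∈ 𝓜, (univ.filter fun a : Fin (2 * 2 ^ e + 1) → K => ∀ z ∈ B, gr a z = true).card : ℕ) : ℝ) := by
      exact_mod_cast hc
    have hE2 : (E.card : ℝ) * (3 * 4 ^ 2 ^ e) ≤ l.length * (Fintype.card K : ℝ) ^ (2 * 2 ^ e + 1) := by
      exact_mod_cast hE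
    have hQ : (0 : ℝ) < (Fintype.card K : ℝ) ^ (2 * 2 ^ e + 1) := by
      have : (0 : ℝ) < Fintype.card K := by exact_mod_cast Fintype.card_pos
      positivity
    generalize (Fintype.card K : ℝ) ^ (2 * 2 ^ e + 1) = Q at hcount hc' hE2 hQ
    have h4 : (0 : ℝ) < 4 ^ 2 ^ e := by positivity
    have h5 : 2 / 3 * Q ≤ (E.card : ℝ) := by linarith
    have h6 : Q * (2 * 4 ^ 2 ^ e) ≤ Q * l.length := by
      calc Q * (2 * 4 ^ 2 ^ e) = (2 / 3 * Q) * (3 * 4 ^ 2 ^ e) := by ring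
        _ ≤ (E.card : ℝ) * (3 * 4 ^ 2 ^ e) := mul_le_mul_of_nonneg_right h5 (by positivity)
        _ ≤ l.length * Q := hE2
        _ = Q * l.length := mul_comm _ _
    have h7 : (2 * 4 ^ 2 ^ e : ℝ) ≤ l.length := le_of_mul_le_mul_left h6 hQ
    have h8 : 2 * 4 ^ 2 ^ e ≤ l.length := by exact_mod_cast h7
    have h9 : 2 ^ 2 ^ e ≤ 4 ^ 2 ^ e := Nat.pow_le_pow_left (by norm_num) _
    omega

end Pool.Agent.PB
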