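import Pool.Agent.helper64.PB.SpecC

/-!
# Project pb (MP_069684_lc): row EAL
-/

set_option autoImplicit false

namespace Pool.Agent.PB

/-- The auxiliary basis. -/
def EAL_G : Set Gate := {⟨1, fC false 1⟩, ⟨1, fC true 1⟩, ⟨1, fNot⟩, ⟨2, fAnd⟩, ⟨2, fOr⟩}

theorem EAL_fin : EAL_G.Finite := by
  unfold EAL_G
  exact Set.toFinite _

theorem EAL_lt (i : Fin 2) : (i : ℕ) < 4 := by
  have := i.2
  omega

/-- One gate. -/
theorem EAL_one (n : ℕ) (g : Gate) (hg : g ∈ EAL_G) (a : Fin g.1 → BF n)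
    (ha : ∀ i, ∃ j, a i = fun x => x j) : Size EAL_G (fun x => g.2 fun i => a i x) 1 :=
  ⟨[fun x => g.2 fun i => a i x], Prog.step [] g a Prog.nil hg (fun i => Or.inr (ha i)), le_rfl,
    Or.inl (List.mem_singleton.2 rfl)⟩

theorem EAL (hSIM : SIM_stmt) (hCLP : CLP_stmt) (hTRB : TRB_stmt) : EAL_stmt := by
  intro G hN hF hA
  obtain ⟨hv, hc⟩ := hCLP
  have hT : InCl G (fC true 1) := by
    have h := hc G 1 1 fNot (fun _ => fC false 1) hN (fun _ => hF)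
    exact h
  have hO : InCl G fOr := by
    have h1 : ∀ i : Fin 2, InCl G (fun x : Fin 2 → Bool => fNot fun _ => x i) := fun i =>
      hc G 1 2 fNot (fun _ x => x i) hN (fun _ => hv G 2 i)
    have h2 := hc G 2 2 fAnd (fun i x => fNot fun _ => x i) hA h1
    have h3 := hc G 1 2 fNot (fun _ x => fAnd fun i => fNot fun _ => x i) hN (fun _ => h2)
    have h4 : (fun x : Fin 2 → Bool => fNot fun _ => fAnd fun i => fNot fun _ => x i) = fOr := by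
      funext x
      simp [fNot, fAnd, fOr]
    rw [h4] at h3
    exact h3
  obtain ⟨c, hc2⟩ := hTRB G EAL_G EAL_fin (by
    intro g hg
    unfold EAL_G at hg
    rcases hg with rfl | rfl | rfl | rfl | rfl
    · exact hF
    · exact hT
    · exact hN
    · exact hA
    · exact hO)
  refine ⟨2 * c, ?_⟩
  intro n hn f s hs
  have m1 : (⟨1, fC false 1⟩ : Gate) ∈ EAL_G := Or.inl rfl
  have m2 : (⟨1, fC true 1⟩ : Gate) ∈ EAL_G := Or.inr (Or.inl rfl)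
  have m3 : (⟨1, fNot⟩ : Gate) ∈ EAL_G := Or.inr (Or.inr (Or.inl rfl))
  have m4 : (⟨2, fAnd⟩ : Gate) ∈ EAL_G := Or.inr (Or.inr (Or.inr (Or.inl rfl)))
  have m5 : (⟨2, fOr⟩ : Gate) ∈ EAL_G := Or.inr (Or.inr (Or.inr (Or.inr rfl)))
  have p1 : Prog EAL_G n [fC false n] :=
    Prog.step [] ⟨1, fC false 1⟩ (fun _ x => x ⟨0, hn⟩) Prog.nil m1 (fun _ => Or.inr ⟨⟨0, hn⟩, rfl⟩)
  have p2 : Prog EAL_G n [fC true n, fC false n] :=
    Prog.step [fC false n] ⟨1, fC true 1⟩ (fun _ x => x ⟨0, hn⟩) p1 m2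
      (fun _ => Or.inr ⟨⟨0, hn⟩, rfl⟩)
  have av : ∀ v, Av [fC true n, fC false n] (fC v n) := by
    intro v
    left
    cases v
    · exact List.mem_cons_of_mem _ (List.mem_singleton.2 rfl)
    · exact List.mem_cons_self
  have g1 : Size EAL_G (fun x : Fin 4 → Bool => x 0 && x 1) 1 :=
    EAL_one 4 ⟨2, fAnd⟩ m4 (fun (i : Fin 2) x => x ⟨(i : ℕ), EAL_lt i⟩)
      (fun (i : Fin 2) => ⟨⟨(i : ℕ), EAL_lt i⟩, rfl⟩)
  have g2 : Size EAL_G (fun x : Fin 4 → Bool => x 0 || x 1) 1 :=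
    EAL_one 4 ⟨2, fOr⟩ m5 (fun (i : Fin 2) x => x ⟨(i : ℕ), EAL_lt i⟩)
      (fun (i : Fin 2) => ⟨⟨(i : ℕ), EAL_lt i⟩, rfl⟩)
  have g3 : Size EAL_G (fun x : Fin 3 → Bool => !(x 0)) 1 :=
    EAL_one 3 ⟨1, fNot⟩ m3 (fun _ x => x 0) (fun _ => ⟨0, rfl⟩)
  have h := hSIM EAL_G n (fun u => u) (fC true n) (fC false n) [fC true n, fC false n] 1
    (fun x => x 0 && x 1) (fun x => x 0 || x 1) (fun x => !(x 0)) p2 (av true) (av false)
    (fun j => Or.inr ⟨j, rfl⟩) av g1 g2 g3 (fun u v => rfl) (fun u v => rfl) (fun u => rfl) f s hs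
  obtain ⟨l, h1, h2, h3⟩ := hc2 n f _ h
  refine ⟨l, h1, h2.trans ?_, h3⟩
  have h4 : ([fC true n, fC false n] : List (BF n)).length = 2 := rfl
  rw [h4]
  nlinarith [Nat.zero_le c, Nat.zero_le s, Nat.mul_le_mul_left c hn, Nat.zero_le (c * s)]

end Pool.Agent.PB
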